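import Mathlib

/-!
# A graph whose upper 4-domination number is smaller than its upper 3-domination number

Vertices: an apex `p`, five centres `c i`, leaves `w a` and leaf tests `b a` (`a = (e, m, j)` with `e`
one of the ten pairs of centres, `m < 100` and `j` one of two groups), and triple tests `r s`
(`s = (e, m, j)`, `m < 4`), which test the three centres outside the pair `e`.
-/

set_option autoImplicit false

namespace Pool.Agent.Results.MP_92077f_co.FourBelowThree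

open Finset

section defs

variable {V : Type} [Fintype V]

open Classical in
/-- `g(N[v])`, the sum of `g` over the closed neighbourhood of `v` -/
noncomputable def nsum (G : SimpleGraph V) (g : V → ℕ) (v : V) : ℕ :=
  ∑ u ∈ Finset.univ.filter (fun u => u = v ∨ G.Adj v u), g u

/-- `g` is a `k`-dominating function with values in `{0, ..., k}` -/
def IsKDom (G : SimpleGraph V) (k : ℕ) (g : V → ℕ) : Prop :=
  (∀ v, g v ≤ k) ∧ ∀ v, k ≤ nsum G g v

/-- `g` is a minimal `k`-dominating function -/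
def IsMinKDom (G : SimpleGraph V) (k : ℕ) (g : V → ℕ) : Prop :=
  IsKDom G k g ∧ ∀ v, 0 < g v → ∃ u, (u = v ∨ G.Adj v u) ∧ nsum G g u = k

/-- the upper `k`-domination number: the maximum weight of a minimal `k`-dominating function -/
noncomputable def upperKDom (G : SimpleGraph V) (k : ℕ) : ℕ :=
  sSup {s | ∃ g : V → ℕ, IsMinKDom G k g ∧ s = ∑ v, g v}

theorem le_upperKDom {G : SimpleGraph V} {k : ℕ} {g : V → ℕ} (h : IsMinKDom G k g) :
    ∑ v, g v ≤ upperKDom G k := by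
  refine le_csSup ⟨Fintype.card V * k, ?_⟩ ⟨g, h, rfl⟩
  rintro s ⟨g', hg', rfl⟩
  calc ∑ v, g' v ≤ ∑ _v : V, k := Finset.sum_le_sum (fun v _ => hg'.1.1 v)
    _ = Fintype.card V * k := by simp

theorem upperKDom_le {G : SimpleGraph V} {k B : ℕ}
    (h : ∀ g, IsMinKDom G k g → ∑ v, g v ≤ B) : upperKDom G k ≤ B := by
  unfold upperKDom
  rcases Set.eq_empty_or_nonempty {s | ∃ g : V → ℕ, IsMinKDom G k g ∧ s = ∑ v, g v} with he | hne
  · rw [he]; simp
  · apply csSup_le hne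
    rintro s ⟨g, hg, rfl⟩
    exact h g hg

end defs

/-! ### The graph -/

/-- index of leaves and leaf tests -/
abbrev A : Type := Fin 10 × Fin 100 × Bool

/-- index of triple tests -/
abbrev R : Type := Fin 10 × Fin 4 × Bool

/-- the vertices: `p`, centres, leaves, leaf tests, triple tests -/
abbrev Vx : Type := Unit ⊕ (Fin 5 ⊕ (A ⊕ (A ⊕ R)))

/-- apex -/
abbrev vp : Vx := Sum.inl ()
/-- centre -/
abbrev vc (i : Fin 5) : Vx := Sum.inr (Sum.inl i)
/-- leaf -/
abbrev vw (a : A) : Vx := Sum.inr (Sum.inr (Sum.inl a))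
/-- leaf test -/
abbrev vb (a : A) : Vx := Sum.inr (Sum.inr (Sum.inr (Sum.inl a)))
/-- triple test -/
abbrev vr (s : R) : Vx := Sum.inr (Sum.inr (Sum.inr (Sum.inr s)))

/-- first element of the pair number `e` -/
def P1 : Fin 10 → Fin 5 := ![0, 0, 0, 0, 1, 1, 1, 2, 2, 3]
/-- second element of the pair number `e` -/
def P2 : Fin 10 → Fin 5 := ![1, 2, 3, 4, 2, 3, 4, 3, 4, 4]

/-- adjacency -/
def adj : Vx → Vx → Prop
  | Sum.inl _, Sum.inr (Sum.inl _) => True
  | Sum.inr (Sum.inl _), Sum.inl _ => True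
  | Sum.inl _, Sum.inr (Sum.inr (Sum.inl _)) => True
  | Sum.inr (Sum.inr (Sum.inl _)), Sum.inl _ => True
  | Sum.inr (Sum.inl i), Sum.inr (Sum.inl i') => i ≠ i'
  | Sum.inr (Sum.inr (Sum.inl a)), Sum.inr (Sum.inr (Sum.inl a')) => a ≠ a'
  | Sum.inr (Sum.inl _), Sum.inr (Sum.inr (Sum.inl _)) => True
  | Sum.inr (Sum.inr (Sum.inl _)), Sum.inr (Sum.inl _) => True
  | Sum.inr (Sum.inr (Sum.inl a)), Sum.inr (Sum.inr (Sum.inr (Sum.inl a'))) => a = a'
  | Sum.inr (Sum.inr (Sum.inr (Sum.inl a'))), Sum.inr (Sum.inr (Sum.inl a)) => a = a'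
  | Sum.inr (Sum.inr (Sum.inr (Sum.inl a))), Sum.inr (Sum.inr (Sum.inr (Sum.inl a'))) => a ≠ a'
  | Sum.inr (Sum.inr (Sum.inr (Sum.inl a))), Sum.inr (Sum.inl i) => i = P1 a.1 ∨ i = P2 a.1
  | Sum.inr (Sum.inl i), Sum.inr (Sum.inr (Sum.inr (Sum.inl a))) => i = P1 a.1 ∨ i = P2 a.1
  | Sum.inr (Sum.inr (Sum.inr (Sum.inl a))), Sum.inr (Sum.inr (Sum.inr (Sum.inr s))) =>
      a.2.2 ≠ s.2.2
  | Sum.inr (Sum.inr (Sum.inr (Sum.inr s))), Sum.inr (Sum.inr (Sum.inr (Sum.inl a))) =>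
      a.2.2 ≠ s.2.2
  | Sum.inr (Sum.inr (Sum.inr (Sum.inr s))), Sum.inr (Sum.inl i) => i ≠ P1 s.1 ∧ i ≠ P2 s.1
  | Sum.inr (Sum.inl i), Sum.inr (Sum.inr (Sum.inr (Sum.inr s))) => i ≠ P1 s.1 ∧ i ≠ P2 s.1
  | _, _ => False

theorem adj_symm : ∀ x y, adj x y → adj y x := by
  rintro (_ | i | a | b | s) (_ | i' | a' | b' | s') h <;> simp only [adj] at h ⊢ <;>
    first
      | exact h
      | exact h.symm

theorem adj_irrefl : ∀ x, ¬ adj x x := by
  rintro (_ | i | a | b | s) h <;> simp [adj] at h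

/-- the graph -/
def G : SimpleGraph Vx where
  Adj := adj
  symm := ⟨fun x y h => adj_symm x y h⟩
  loopless := ⟨fun x h => adj_irrefl x h⟩

section sums

variable (g : Vx → ℕ)

/-- total weight of the centres -/
def cs : ℕ := ∑ i, g (vc i)
/-- total weight of the leaves -/
def ws : ℕ := ∑ a, g (vw a)
/-- weight of the leaf tests of group `j` -/
def bs (j : Bool) : ℕ := ∑ a : A, if a.2.2 = j then g (vb a) else 0
/-- weight of the triple tests with copy index `j` -/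
def rs (j : Bool) : ℕ := ∑ s : R, if s.2.2 = j then g (vr s) else 0

theorem sum_Vx (f : Vx → ℕ) : ∑ u, f u = f vp + (∑ i, f (vc i)) + (∑ a, f (vw a)) +
    (∑ a, f (vb a)) + ∑ s, f (vr s) := by
  rw [Fintype.sum_sum_type, Fintype.sum_sum_type, Fintype.sum_sum_type, Fintype.sum_sum_type]
  simp only [Finset.univ_unique, Finset.sum_singleton, PUnit.default_eq_unit, add_assoc]

theorem total : ∑ v, g v = g vp + cs g + ws g + (bs g true + bs g false) +
    (rs g true + rs g false) := by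
  have hb : ∑ a : A, g (vb a) = bs g true + bs g false := by
    unfold bs
    rw [← Finset.sum_add_distrib]
    refine Finset.sum_congr rfl fun a _ => ?_
    cases h : a.2.2 <;> simp
  have hr : ∑ s : R, g (vr s) = rs g true + rs g false := by
    unfold rs
    rw [← Finset.sum_add_distrib]
    refine Finset.sum_congr rfl fun a _ => ?_
    cases h : a.2.2 <;> simp
  rw [sum_Vx, hb, hr]
  unfold cs ws
  ring

open Classical in
theorem nsum_split (v : Vx) : nsum G g v =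
    (if vp = v ∨ adj v vp then g vp else 0) +
    (∑ i, if vc i = v ∨ adj v (vc i) then g (vc i) else 0) +
    (∑ a, if vw a = v ∨ adj v (vw a) then g (vw a) else 0) +
    (∑ a, if vb a = v ∨ adj v (vb a) then g (vb a) else 0) +
    (∑ s, if vr s = v ∨ adj v (vr s) then g (vr s) else 0) := by
  unfold nsum
  rw [Finset.sum_filter, sum_Vx]
  refine congrArg₂ _ (congrArg₂ _ (congrArg₂ _ (congrArg₂ _ ?_ ?_) ?_) ?_) ?_
  · exact @if_congr _ _ _ (_) (_) _ _ _ _ Iff.rfl rfl rfl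
  · exact Finset.sum_congr rfl fun _ _ => @if_congr _ _ _ (_) (_) _ _ _ _ Iff.rfl rfl rfl
  · exact Finset.sum_congr rfl fun _ _ => @if_congr _ _ _ (_) (_) _ _ _ _ Iff.rfl rfl rfl
  · exact Finset.sum_congr rfl fun _ _ => @if_congr _ _ _ (_) (_) _ _ _ _ Iff.rfl rfl rfl
  · exact Finset.sum_congr rfl fun _ _ => @if_congr _ _ _ (_) (_) _ _ _ _ Iff.rfl rfl rfl

theorem nsum_p : nsum G g vp = g vp + cs g + ws g := by
  classical
  rw [nsum_split]
  simp [adj, cs, ws]

theorem nsum_w (a : A) : nsum G g (vw a) = g vp + cs g + ws g + g (vb a) := by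
  classical
  rw [nsum_split]
  have h1 : ∀ a', (vw a' = vw a ∨ adj (vw a) (vw a')) := by
    intro a'
    by_cases h : a' = a
    · left; rw [h]
    · right
      simp only [adj]
      exact fun h' => h h'.symm
  simp only [h1, if_true]
  simp [adj, cs, ws]

theorem nsum_c (i : Fin 5) : nsum G g (vc i) = g vp + cs g + ws g +
    (∑ a : A, if (i = P1 a.1 ∨ i = P2 a.1) then g (vb a) else 0) +
    (∑ s : R, if (i ≠ P1 s.1 ∧ i ≠ P2 s.1) then g (vr s) else 0) := by
  classical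
  rw [nsum_split]
  have h1 : ∀ i', (vc i' = vc i ∨ adj (vc i) (vc i')) := by
    intro i'
    by_cases h : i' = i
    · left; rw [h]
    · right
      simp only [adj]
      exact fun h' => h h'.symm
  simp only [h1, if_true]
  simp [adj, cs, ws]

theorem pair_ne (e : Fin 10) : P1 e ≠ P2 e := by
  revert e; decide

theorem sum_pair (e : Fin 10) (f : Fin 5 → ℕ) :
    (∑ i, if (i = P1 e ∨ i = P2 e) then f i else 0) = f (P1 e) + f (P2 e) := by
  rw [← Finset.sum_filter]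
  have : Finset.univ.filter (fun i => i = P1 e ∨ i = P2 e) = {P1 e, P2 e} := by
    ext i
    simp
  rw [this, Finset.sum_pair (pair_ne e)]

theorem sum_triple (e : Fin 10) (f : Fin 5 → ℕ) :
    (∑ i, if (i ≠ P1 e ∧ i ≠ P2 e) then f i else 0) + (f (P1 e) + f (P2 e)) = ∑ i, f i := by
  rw [← sum_pair e f, ← Finset.sum_add_distrib]
  refine Finset.sum_congr rfl fun i _ => ?_
  by_cases h1 : i = P1 e <;> by_cases h2 : i = P2 e <;> simp [h1, h2]

/-- weight of the triple complementary to the pair `e` -/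
def tr (e : Fin 10) : ℕ := ∑ i, if (i ≠ P1 e ∧ i ≠ P2 e) then g (vc i) else 0

theorem nsum_b (a : A) : nsum G g (vb a) = (bs g true + bs g false) + g (vw a) +
    (g (vc (P1 a.1)) + g (vc (P2 a.1))) + rs g (!a.2.2) := by
  classical
  rw [nsum_split]
  have h1 : ∀ a', (vb a' = vb a ∨ adj (vb a) (vb a')) := by
    intro a'
    by_cases h : a' = a
    · left; rw [h]
    · right
      simp only [adj]
      exact fun h' => h h'.symm
  simp only [h1, if_true]
  have hb : ∑ a : A, g (vb a) = bs g true + bs g false := by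
    unfold bs
    rw [← Finset.sum_add_distrib]
    refine Finset.sum_congr rfl fun a _ => ?_
    cases h : a.2.2 <;> simp
  have hc := sum_pair a.1 (fun i => g (vc i))
  rw [hb]
  have h2 : (∑ i, if vc i = vb a ∨ adj (vb a) (vc i) then g (vc i) else 0) =
      g (vc (P1 a.1)) + g (vc (P2 a.1)) := by
    rw [← hc]
    refine Finset.sum_congr rfl fun i _ => ?_
    simp [adj]
  have h3 : (∑ a', if vw a' = vb a ∨ adj (vb a) (vw a') then g (vw a') else 0) = g (vw a) := by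
    simp [adj]
  have h4 : (∑ s, if vr s = vb a ∨ adj (vb a) (vr s) then g (vr s) else 0) = rs g (!a.2.2) := by
    unfold rs
    refine Finset.sum_congr rfl fun s _ => ?_
    cases h : a.2.2 <;> cases h' : s.2.2 <;> simp [adj, h, h']
  have h5 : (if vp = vb a ∨ adj (vb a) vp then g vp else 0) = 0 := by
    simp [adj]
  rw [h2, h3, h4, h5]
  ring

theorem nsum_r (s : R) : nsum G g (vr s) = g (vr s) + bs g (!s.2.2) + tr g s.1 := by
  classical
  rw [nsum_split]
  have h2 : (∑ i, if vc i = vr s ∨ adj (vr s) (vc i) then g (vc i) else 0) = tr g s.1 := by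
    unfold tr
    refine Finset.sum_congr rfl fun i _ => ?_
    simp [adj]
  have h3 : (∑ a', if vw a' = vr s ∨ adj (vr s) (vw a') then g (vw a') else 0) = 0 := by
    simp [adj]
  have h4 : (∑ s', if vr s' = vr s ∨ adj (vr s) (vr s') then g (vr s') else 0) = g (vr s) := by
    simp [adj]
  have h5 : (if vp = vr s ∨ adj (vr s) vp then g vp else 0) = 0 := by
    simp [adj]
  have h6 : (∑ a', if vb a' = vr s ∨ adj (vr s) (vb a') then g (vb a') else 0) =
      bs g (!s.2.2) := by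
    unfold bs
    refine Finset.sum_congr rfl fun a' _ => ?_
    cases h : a'.2.2 <;> cases h' : s.2.2 <;> simp [adj, h, h']
  rw [h2, h3, h4, h5, h6]
  ring

end sums

/-! ### Finite checks -/

/-- the sum over the ten pairs of the truncated slacks -/
def SP (B x0 x1 x2 x3 x4 : ℕ) : ℕ :=
  (4 - B - (x0 + x1)) + (4 - B - (x0 + x2)) + (4 - B - (x0 + x3)) + (4 - B - (x0 + x4)) +
  (4 - B - (x1 + x2)) + (4 - B - (x1 + x3)) + (4 - B - (x1 + x4)) + (4 - B - (x2 + x3)) +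
  (4 - B - (x2 + x4)) + (4 - B - (x3 + x4))

theorem SP_anti {b B : ℕ} (h : b ≤ B) (x0 x1 x2 x3 x4 : ℕ) :
    SP B x0 x1 x2 x3 x4 ≤ SP b x0 x1 x2 x3 x4 := by
  have h' : 4 - B ≤ 4 - b := by omega
  unfold SP
  gcongr

/-- all ten triples have weight at least `4 - b` -/
def TR (b x0 x1 x2 x3 x4 : ℕ) : Prop :=
  4 ≤ b + (x2 + x3 + x4) ∧ 4 ≤ b + (x1 + x3 + x4) ∧ 4 ≤ b + (x1 + x2 + x4) ∧
  4 ≤ b + (x1 + x2 + x3) ∧ 4 ≤ b + (x0 + x3 + x4) ∧ 4 ≤ b + (x0 + x2 + x4) ∧
  4 ≤ b + (x0 + x2 + x3) ∧ 4 ≤ b + (x0 + x1 + x4) ∧ 4 ≤ b + (x0 + x1 + x3) ∧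
  4 ≤ b + (x0 + x1 + x2)

instance (b x0 x1 x2 x3 x4 : ℕ) : Decidable (TR b x0 x1 x2 x3 x4) := by
  unfold TR; infer_instance

theorem check1 : ∀ v0 v1 v2 v3 v4 : Fin 5, ∀ b0 b1 : Fin 4, b0.val + b1.val ≤ 3 →
    TR b0 v0 v1 v2 v3 v4 → TR b1 v0 v1 v2 v3 v4 → SP (b0 + b1) v0 v1 v2 v3 v4 ≤ 8 := by
  decide +kernel

theorem check2 : ∀ v0 v1 v2 v3 v4 : Fin 5, ∀ b : Fin 4,
    TR b v0 v1 v2 v3 v4 → SP b v0 v1 v2 v3 v4 ≤ 10 := by
  decide +kernel

theorem check1' (x0 x1 x2 x3 x4 b0 b1 : ℕ) (h0 : x0 ≤ 4) (h1 : x1 ≤ 4) (h2 : x2 ≤ 4)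
    (h3 : x3 ≤ 4) (h4 : x4 ≤ 4) (hb : b0 + b1 ≤ 3)
    (m0 : TR b0 x0 x1 x2 x3 x4) (m1 : TR b1 x0 x1 x2 x3 x4) :
    SP (b0 + b1) x0 x1 x2 x3 x4 ≤ 8 :=
  check1 ⟨x0, by omega⟩ ⟨x1, by omega⟩ ⟨x2, by omega⟩ ⟨x3, by omega⟩ ⟨x4, by omega⟩
    ⟨b0, by omega⟩ ⟨b1, by omega⟩ hb m0 m1

theorem check2' (x0 x1 x2 x3 x4 b : ℕ) (h0 : x0 ≤ 4) (h1 : x1 ≤ 4) (h2 : x2 ≤ 4)
    (h3 : x3 ≤ 4) (h4 : x4 ≤ 4) (hb : b ≤ 3) (m0 : TR b x0 x1 x2 x3 x4) :
    SP b x0 x1 x2 x3 x4 ≤ 10 :=
  check2 ⟨x0, by omega⟩ ⟨x1, by omega⟩ ⟨x2, by omega⟩ ⟨x3, by omega⟩ ⟨x4, by omega⟩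
    ⟨b, by omega⟩ m0

/-! ### The lower bound for `k = 3` -/

/-- weight one on the centres and the leaves -/
def g0 : Vx → ℕ
  | Sum.inl _ => 0
  | Sum.inr (Sum.inl _) => 1
  | Sum.inr (Sum.inr (Sum.inl _)) => 1
  | Sum.inr (Sum.inr (Sum.inr _)) => 0

theorem g0_cs : cs g0 = 5 := by simp [cs, g0]
theorem g0_ws : ws g0 = 2000 := by simp [ws, g0]
theorem g0_bs (j : Bool) : bs g0 j = 0 := by simp [bs, g0]
theorem g0_rs (j : Bool) : rs g0 j = 0 := by simp [rs, g0]
theorem g0_tr (e : Fin 10) : tr g0 e = 3 := by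
  have h := sum_triple e (fun i => g0 (vc i))
  have h' : tr g0 e = ∑ i, if (i ≠ P1 e ∧ i ≠ P2 e) then g0 (vc i) else 0 := rfl
  rw [← h'] at h
  simp [g0] at h
  omega

theorem g0_min : IsMinKDom G 3 g0 := by
  refine ⟨⟨?_, ?_⟩, ?_⟩
  · rintro (_ | i | a | b | s) <;> simp [g0]
  · rintro (_ | i | a | b | s)
    · rw [nsum_p, g0_cs, g0_ws]; omega
    · rw [nsum_c, g0_cs, g0_ws]; omega
    · rw [nsum_w, g0_cs, g0_ws]; omega
    · rw [nsum_b, g0_bs, g0_bs, g0_rs]; simp [g0]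
    · rw [nsum_r, g0_bs, g0_tr]; omega
  · rintro (_ | i | a | b | s) h
    · simp [g0] at h
    · have he : ∃ e : Fin 10, i ≠ P1 e ∧ i ≠ P2 e := by
        revert i; decide
      obtain ⟨e, he⟩ := he
      refine ⟨vr (e, 0, true), Or.inr he, ?_⟩
      rw [nsum_r, g0_bs, g0_tr]
      simp [g0]
    · refine ⟨vb a, Or.inr rfl, ?_⟩
      rw [nsum_b, g0_bs, g0_bs, g0_rs]
      simp [g0]
    · simp [g0] at h
    · simp [g0] at h

theorem lower3 : 2005 ≤ upperKDom G 3 := by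
  have h := le_upperKDom g0_min
  rw [total, g0_cs, g0_ws, g0_bs, g0_bs, g0_rs, g0_rs] at h
  simp [g0] at h
  exact h

/-! ### The upper bound for `k = 4` -/

section upper

variable {g : Vx → ℕ}

theorem bs_le (hg : IsMinKDom G 4 g) (j : Bool) : bs g j ≤ 4 := by
  obtain ⟨⟨hle, hdom⟩, hmin⟩ := hg
  by_contra hcon
  have hp := hdom vp
  rw [nsum_p] at hp
  have hex : ∃ a : A, a.2.2 = j ∧ 0 < g (vb a) := by
    by_contra hno
    push Not at hno
    apply hcon
    have : bs g j = 0 := by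
      unfold bs
      apply Finset.sum_eq_zero
      intro a _
      split_ifs with h
      · have := hno a h
        omega
      · rfl
    omega
  obtain ⟨a, ha, hpos⟩ := hex
  obtain ⟨u, hu, hsum⟩ := hmin (vb a) hpos
  rcases u with _ | i | a' | a' | s
  · rcases hu with h | h
    · cases h
    · exact h
  · have hi : i = P1 a.1 ∨ i = P2 a.1 := by
      rcases hu with h | h
      · cases h
      · exact h
    rw [nsum_c] at hsum
    have h1 : g (vb a) ≤ ∑ a : A, if (i = P1 a.1 ∨ i = P2 a.1) then g (vb a) else 0 := by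
      have := Finset.single_le_sum (f := fun a : A => if (i = P1 a.1 ∨ i = P2 a.1) then g (vb a)
        else 0) (fun _ _ => Nat.zero_le _) (Finset.mem_univ a)
      simp only [hi, if_true] at this
      exact this
    omega
  · have hi : a' = a := by
      rcases hu with h | h
      · cases h
      · exact h
    rw [nsum_w, hi] at hsum
    omega
  · rw [nsum_b] at hsum
    cases j <;> omega
  · have hi : a.2.2 ≠ s.2.2 := by
      rcases hu with h | h
      · cases h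
      · exact h
    rw [nsum_r] at hsum
    have : (!s.2.2) = j := by
      rw [← ha]
      cases h1 : a.2.2 <;> cases h2 : s.2.2 <;> simp_all
    rw [this] at hsum
    omega

theorem cs_eq : cs g = g (vc 0) + g (vc 1) + g (vc 2) + g (vc 3) + g (vc 4) := by
  unfold cs
  rw [Fin.sum_univ_five]

theorem tr_eq (e : Fin 10) : tr g e + (g (vc (P1 e)) + g (vc (P2 e))) = cs g :=
  sum_triple e (fun i => g (vc i))

/-- weight of the leaves of group `j` -/
def wj (g : Vx → ℕ) (j : Bool) : ℕ := ∑ e : Fin 10, ∑ m : Fin 100, g (vw (e, m, j))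

theorem ws_eq : ws g = wj g true + wj g false := by
  unfold ws wj
  rw [← Finset.sum_add_distrib, Fintype.sum_prod_type]
  refine Finset.sum_congr rfl fun e _ => ?_
  rw [← Finset.sum_add_distrib, Fintype.sum_prod_type]
  refine Finset.sum_congr rfl fun m _ => ?_
  rw [Fintype.sum_bool]

/-- a leaf of positive weight has a tight test -/
theorem leaf_tight (hg : IsMinKDom G 4 g) (hw : 4 < ws g) (a : A) (hpos : 0 < g (vw a)) :
    (bs g true + bs g false) + g (vw a) +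
    (g (vc (P1 a.1)) + g (vc (P2 a.1))) + rs g (!a.2.2) = 4 := by
  obtain ⟨⟨hle, hdom⟩, hmin⟩ := hg
  obtain ⟨u, hu, hsum⟩ := hmin (vw a) hpos
  rcases u with _ | i | a' | a' | s
  · rw [nsum_p] at hsum; omega
  · rw [nsum_c] at hsum; omega
  · rw [nsum_w] at hsum; omega
  · have hi : a = a' := by
      rcases hu with h | h
      · cases h
      · exact h
    rw [nsum_b, ← hi] at hsum
    exact hsum
  · rcases hu with h | h
    · cases h
    · exact h.elim

theorem wj_zero (hg : IsMinKDom G 4 g) (hw : 4 < ws g) (j : Bool)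
    (hd : 4 ≤ bs g true + bs g false + rs g (!j)) : wj g j = 0 := by
  unfold wj
  apply Finset.sum_eq_zero
  intro e _
  apply Finset.sum_eq_zero
  intro m _
  by_contra hne
  have := leaf_tight hg hw (e, m, j) (Nat.pos_of_ne_zero hne)
  simp only at this
  omega

theorem wj_le (hg : IsMinKDom G 4 g) (hw : 4 < ws g) (j : Bool) :
    wj g j ≤ 100 * ∑ e : Fin 10,
      (4 - (bs g true + bs g false) - (g (vc (P1 e)) + g (vc (P2 e)))) := by
  unfold wj
  rw [Finset.mul_sum]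
  apply Finset.sum_le_sum
  intro e _
  calc ∑ m : Fin 100, g (vw (e, m, j)) ≤ ∑ _m : Fin 100,
      (4 - (bs g true + bs g false) - (g (vc (P1 e)) + g (vc (P2 e)))) := by
        apply Finset.sum_le_sum
        intro m _
        rcases Nat.eq_zero_or_pos (g (vw (e, m, j))) with h | h
        · omega
        · have := leaf_tight hg hw (e, m, j) h
          simp only at this
          omega
    _ = _ := by simp

theorem alive (hg : IsMinKDom G 4 g) (j : Bool)
    (hd : rs g (!j) ≤ 3) (e : Fin 10) : 4 ≤ bs g j + tr g e := by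
  have hex : ∃ m : Fin 4, g (vr (e, m, !j)) = 0 := by
    by_contra hno
    push Not at hno
    have h1 : ∑ m : Fin 4, g (vr (e, m, !j)) ≤ rs g (!j) := by
      unfold rs
      rw [Fintype.sum_prod_type]
      have h2 := Finset.single_le_sum (f := fun e' : Fin 10 => ∑ y : Fin 4 × Bool,
        if (e', y).2.2 = (!j) then g (vr (e', y)) else 0) (fun _ _ => Nat.zero_le _)
        (Finset.mem_univ e)
      refine le_trans ?_ h2
      simp only
      rw [Fintype.sum_prod_type]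
      apply Finset.sum_le_sum
      intro m _
      have h3 := Finset.single_le_sum (f := fun y : Bool =>
        if (e, m, y).2.2 = (!j) then g (vr (e, m, y)) else 0) (fun _ _ => Nat.zero_le _)
        (Finset.mem_univ (!j))
      simp only [if_true] at h3
      exact h3
    have h2 : ∑ m : Fin 4, 1 ≤ ∑ m : Fin 4, g (vr (e, m, !j)) :=
      Finset.sum_le_sum (fun m _ => Nat.one_le_iff_ne_zero.2 (hno m))
    simp at h2
    omega
  obtain ⟨m, hm⟩ := hex
  have := hg.1.2 (vr (e, m, !j))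
  rw [nsum_r, hm] at this
  simp only [Bool.not_not] at this
  omega

theorem rs_le (hg : IsMinKDom G 4 g) : rs g true + rs g false ≤ 320 := by
  have hr : ∑ s : R, g (vr s) = rs g true + rs g false := by
    unfold rs
    rw [← Finset.sum_add_distrib]
    refine Finset.sum_congr rfl fun a _ => ?_
    cases h : a.2.2 <;> simp
  rw [← hr]
  calc ∑ s : R, g (vr s) ≤ ∑ _s : R, 4 := Finset.sum_le_sum (fun s _ => hg.1.1 _)
    _ = 320 := by simp

theorem sum_pairs (B : ℕ) : ∑ e : Fin 10, (4 - B - (g (vc (P1 e)) + g (vc (P2 e)))) =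
    SP B (g (vc 0)) (g (vc 1)) (g (vc 2)) (g (vc 3)) (g (vc 4)) := by
  generalize hf : (fun i => g (vc i)) = f
  have hf' : ∀ i, g (vc i) = f i := fun i => by rw [← hf]
  simp only [hf']
  rw [Fin.sum_univ_succ, Fin.sum_univ_succ, Fin.sum_univ_succ, Fin.sum_univ_succ,
    Fin.sum_univ_succ, Fin.sum_univ_five]
  unfold SP
  simp only [add_assoc]
  rfl

theorem alive_all (hg : IsMinKDom G 4 g) (j : Bool) (hd : rs g (!j) ≤ 3) :
    TR (bs g j) (g (vc 0)) (g (vc 1)) (g (vc 2)) (g (vc 3)) (g (vc 4)) := by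
  have hcs := cs_eq (g := g)
  have key : ∀ e, 4 + (g (vc (P1 e)) + g (vc (P2 e))) ≤ bs g j + cs g := by
    intro e
    have h1 := tr_eq (g := g) e
    have h2 := alive hg j hd e
    omega
  rw [hcs] at key
  have k0 : 4 + (g (vc 0) + g (vc 1)) ≤ _ := key 0
  have k1 : 4 + (g (vc 0) + g (vc 2)) ≤ _ := key 1
  have k2 : 4 + (g (vc 0) + g (vc 3)) ≤ _ := key 2
  have k3 : 4 + (g (vc 0) + g (vc 4)) ≤ _ := key 3
  have k4 : 4 + (g (vc 1) + g (vc 2)) ≤ _ := key 4
  have k5 : 4 + (g (vc 1) + g (vc 3)) ≤ _ := key 5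
  have k6 : 4 + (g (vc 1) + g (vc 4)) ≤ _ := key 6
  have k7 : 4 + (g (vc 2) + g (vc 3)) ≤ _ := key 7
  have k8 : 4 + (g (vc 2) + g (vc 4)) ≤ _ := key 8
  have k9 : 4 + (g (vc 3) + g (vc 4)) ≤ _ := key 9
  refine ⟨?_, ?_, ?_, ?_, ?_, ?_, ?_, ?_, ?_, ?_⟩ <;> omega

theorem arith {x0 x1 x2 x3 x4 B1 B0 W1 W0 R1 R0 : ℕ} (h0 : x0 ≤ 4) (h1 : x1 ≤ 4) (h2 : x2 ≤ 4)
    (h3 : x3 ≤ 4) (h4 : x4 ≤ 4)
    (w1 : W1 ≤ 100 * SP (B1 + B0) x0 x1 x2 x3 x4) (w0 : W0 ≤ 100 * SP (B1 + B0) x0 x1 x2 x3 x4)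
    (z1 : 4 ≤ B1 + B0 + R1 → W1 = 0) (z0 : 4 ≤ B1 + B0 + R0 → W0 = 0)
    (l1 : R1 ≤ 3 → TR B1 x0 x1 x2 x3 x4) (l0 : R0 ≤ 3 → TR B0 x0 x1 x2 x3 x4) :
    W1 + W0 ≤ 1600 := by
  by_cases a1 : 4 ≤ B1 + B0 + R1
  · have z1' := z1 a1
    by_cases a2 : 4 ≤ B1 + B0 + R0
    · have z2' := z0 a2
      omega
    · have c := check2' x0 x1 x2 x3 x4 B0 h0 h1 h2 h3 h4 (by omega) (l0 (by omega))
      have c' := SP_anti (show B0 ≤ B1 + B0 by omega) x0 x1 x2 x3 x4
      omega
  · by_cases a2 : 4 ≤ B1 + B0 + R0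
    · have z2' := z0 a2
      have c := check2' x0 x1 x2 x3 x4 B1 h0 h1 h2 h3 h4 (by omega) (l1 (by omega))
      have c' := SP_anti (show B1 ≤ B1 + B0 by omega) x0 x1 x2 x3 x4
      omega
    · have c := check1' x0 x1 x2 x3 x4 B1 B0 h0 h1 h2 h3 h4 (by omega) (l1 (by omega))
        (l0 (by omega))
      omega

theorem ws_le (hg : IsMinKDom G 4 g) (hw : 4 < ws g) : ws g ≤ 1600 := by
  have w1 := wj_le hg hw true
  have w2 := wj_le hg hw false
  rw [ws_eq]
  rw [sum_pairs] at w1 w2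
  exact arith (hg.1.1 (vc 0)) (hg.1.1 (vc 1)) (hg.1.1 (vc 2)) (hg.1.1 (vc 3)) (hg.1.1 (vc 4))
    w1 w2 (wj_zero hg hw true) (wj_zero hg hw false) (alive_all hg true) (alive_all hg false)

theorem upper4 (hg : IsMinKDom G 4 g) : ∑ v, g v ≤ 1952 := by
  have hb1 := bs_le hg true
  have hb2 := bs_le hg false
  have hr := rs_le hg
  have hp := hg.1.1 vp
  have hc0 := hg.1.1 (vc 0)
  have hc1 := hg.1.1 (vc 1)
  have hc2 := hg.1.1 (vc 2)
  have hc3 := hg.1.1 (vc 3)
  have hc4 := hg.1.1 (vc 4)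
  have hcs := cs_eq (g := g)
  have hws : ws g ≤ 1600 := by
    rcases Nat.lt_or_ge 4 (ws g) with hw | hw
    · exact ws_le hg hw
    · omega
  rw [total]
  omega

end upper

/-- There are a finite simple graph `G` and `k = 3` with `Γ_{k+1}(G) < Γ_k(G)`. -/
theorem result : ∃ (V : Type) (_ : Fintype V) (_ : Nonempty V) (G : SimpleGraph V) (k : ℕ),
    0 < k ∧ upperKDom G (k + 1) < upperKDom G k := by
  refine ⟨Vx, inferInstance, ⟨vp⟩, G, 3, by norm_num, ?_⟩
  have h1 := lower3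
  have h2 : upperKDom G (3 + 1) ≤ 1952 := upperKDom_le (fun g hg => upper4 hg)
  omega

end Pool.Agent.Results.MP_92077f_co.FourBelowThree
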